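import Pool.Agent.H21.BS.TB

/-!
# Products, conjugates and shifts of weights of bounded variation
-/

set_option autoImplicit false

open Finset Pool.Agent.H6.N4D Pool.Agent.H21.BS

namespace Pool.Agent.H38.BS

theorem pf_BVL : T_BVL := by
  refine ⟨?_, ?_, ?_⟩
  · intro v w a N g h hg hh
    refine ⟨fun n => ?_, ?_⟩
    · rw [norm_mul]
      exact mul_le_one₀ (hg.1 n) (norm_nonneg _) (hh.1 n)
    · calc ∑ x ∈ range N, ‖g (a + x + 1) * h (a + x + 1) - g (a + x) * h (a + x)‖ ≤
          ∑ x ∈ range N, (‖h (a + x + 1) - h (a + x)‖ + ‖g (a + x + 1) - g (a + x)‖) := by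
            refine sum_le_sum fun x _ => ?_
            have e : g (a + x + 1) * h (a + x + 1) - g (a + x) * h (a + x) =
                g (a + x + 1) * (h (a + x + 1) - h (a + x)) +
                  h (a + x) * (g (a + x + 1) - g (a + x)) := by ring
            rw [e]
            refine (norm_add_le _ _).trans ?_
            rw [norm_mul, norm_mul]
            refine add_le_add ?_ ?_
            · exact mul_le_of_le_one_left (norm_nonneg _) (hg.1 _)
            · exact mul_le_of_le_one_left (norm_nonneg _) (hh.1 _)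
        _ = ∑ x ∈ range N, ‖h (a + x + 1) - h (a + x)‖ +
            ∑ x ∈ range N, ‖g (a + x + 1) - g (a + x)‖ := sum_add_distrib
        _ ≤ v + w := by
            have h1 := hg.2
            have h2 := hh.2
            linarith
  · intro v a N g hg
    refine ⟨fun n => ?_, ?_⟩
    · rw [RCLike.norm_conj]
      exact hg.1 n
    · refine le_trans (le_of_eq (sum_congr rfl fun x _ => ?_)) hg.2
      show ‖starRingEnd ℂ (g (a + x + 1)) - starRingEnd ℂ (g (a + x))‖ = _
      rw [← map_sub, RCLike.norm_conj]
  · intro v a N M o g hg hoM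
    refine ⟨fun n => hg.1 _, le_trans ?_ hg.2⟩
    have h1 : ∑ x ∈ range M, ‖g (a + x + 1 + o) - g (a + x + o)‖ =
        ∑ x ∈ (range M).image (fun x => x + o), ‖g (a + x + 1) - g (a + x)‖ := by
      rw [sum_image (fun x _ y _ hxy => by simpa using hxy)]
      refine sum_congr rfl fun x _ => ?_
      have e1 : a + x + 1 + o = a + (x + o) + 1 := by ring
      have e2 : a + x + o = a + (x + o) := by ring
      rw [e1, e2]
    show ∑ x ∈ range M, ‖g (a + x + 1 + o) - g (a + x + o)‖ ≤ _
    rw [h1]
    refine sum_le_sum_of_subset_of_nonneg ?_ fun _ _ _ => norm_nonneg _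
    intro y hy
    rw [mem_image] at hy
    obtain ⟨x, hx, rfl⟩ := hy
    rw [mem_range] at hx ⊢
    omega

end Pool.Agent.H38.BS
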