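import Pool.Agent.H21.BS.TB

/-!
# One quadruple which is not bad
-/

set_option autoImplicit false

open Finset Pool.Agent.H6.N4D Pool.Agent.H21.BS

namespace Pool.Agent.H38.BS

theorem pf_PR4 (hPRD : T_PRD) : T_PR4 := by
  intro N a M κ α q o G hpr h200 hinj hκ hκ1 hκN hbad hG
  have hN : (0 : ℝ) < N := by
    rcases Nat.eq_zero_or_pos N with h | h
    · subst h
      norm_num at hκN
    · exact_mod_cast h
  have hN1 : 1 ≤ N := by exact_mod_cast hN
  have hκN0 : 0 < κ * N := mul_pos hκ hN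
  have h1 := hPRD 4 q o (α (q 0) - α (q 1) - α (q 2) + α (q 3)) (1 / (κ * N)) 40 a M G hpr hinj
    (by positivity) hG (by
      intro b hb
      by_contra hlt
      apply hbad
      refine ⟨fun j => -b j, fun j h => hb j ((dvd_neg).1 h), ?_⟩
      have e : α (q 0) - α (q 1) - α (q 2) + α (q 3) - ∑ j, ((-b j : ℤ) : ℝ) / q j =
          α (q 0) - α (q 1) - α (q 2) + α (q 3) + ∑ j, (b j : ℝ) / q j := by
        rw [sub_eq_add_neg, ← sum_neg_distrib]
        congr 1
        refine sum_congr rfl fun j _ => ?_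
        push_cast
        ring
      rw [e]
      exact (not_le.1 hlt).le)
  refine h1.trans ?_
  set X : ℕ := ∏ j, q j with hX
  have hXr : (∏ j, (q j : ℝ)) = (X : ℝ) := by
    rw [hX]
    push_cast
    rfl
  have hX200 : X ^ 200 ≤ N ^ 4 := by
    rw [hX, ← prod_pow]
    calc ∏ j : Fin 4, q j ^ 200 ≤ ∏ _j : Fin 4, N := prod_le_prod' fun j _ => h200 j
      _ = N ^ 4 := by simp
  have hX4 : X ^ 4 ≤ N := by
    have h2 : (X ^ 4) ^ 50 ≤ N ^ 50 := by
      rw [← pow_mul]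
      exact hX200.trans (Nat.pow_le_pow_right hN1 (by norm_num))
    exact (Nat.pow_le_pow_iff_left (by norm_num)).1 h2
  have hX2 : (X : ℝ) ^ 2 ≤ κ * N := by
    have h3 : ((X : ℝ) ^ 2) ^ 2 ≤ (κ * N) ^ 2 := by
      have h4 : ((X : ℝ) ^ 2) ^ 2 = (X : ℝ) ^ 4 := by ring
      have h5 : (X : ℝ) ^ 4 ≤ N := by exact_mod_cast hX4
      rw [h4]
      calc (X : ℝ) ^ 4 ≤ N := h5
        _ = 1 * N := (one_mul _).symm
        _ ≤ (κ ^ 2 * N) * N := mul_le_mul_of_nonneg_right hκN hN.le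
        _ = (κ * N) ^ 2 := by ring
    exact le_of_sq_le_sq h3 hκN0.le
  rw [hXr]
  have h6 : 1 / (2 * (1 / (κ * N))) = κ * N / 2 := by
    field_simp
  rw [h6]
  linarith

end Pool.Agent.H38.BS
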